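import Mathlib
import Pool.Agent.Q291.BG.Fin

/-!
# The threshold of the bidirectional `k`-neighbor graph in high dimension

`k_c(d)` is of order `√d`; more precisely `√2 ≤ k_c(d) / √d ≤ 2 + o(1)`.
-/

namespace Pool.Agent.Results.MP_8219fb_pr.OrderOfGrowth

open Filter
open scoped Asymptotics
open Q291.BG

theorem result :
    ((fun d : ℕ => (kc d : ℝ)) =Θ[atTop] fun d : ℕ => Real.sqrt d) ∧
    ∀ ε : ℝ, 0 < ε → ∀ᶠ d : ℕ in atTop,
      Real.sqrt 2 * Real.sqrt d ≤ kc d ∧ (kc d : ℝ) ≤ (2 + ε) * Real.sqrt d :=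
  ⟨kc_theta, fun _ hε => kc_bounds hε⟩

end Pool.Agent.Results.MP_8219fb_pr.OrderOfGrowth
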